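import Pool.Agent.Helper52_ABA.LStmts

set_option autoImplicit false

/-! # ABL, module GLUE -/

namespace Pool.Agent.ABA.B.H18

open Pool.Agent.ABA.B Pool.Agent.ABA.B.TG

theorem glue_aux (hI : InsStmt) {V E : Type} {S : TG V E} {x : V} {w : List E} {m : ℕ}
    (h : S.D x w m) : ∀ (α : List E) (e : E), w = α ++ [e] → ∀ (β : List E) (n : ℕ),
      S.D x (S.inv e :: β) n → S.D x (α ++ β) (m + n) := by
  induction h with
  | nil x =>
    intro α e hw
    simp at hw
  | @br f b a m k h1 h2 ih1 ih2 =>
    intro α e hw β n hβ
    rcases List.eq_nil_or_concat a with ha | ⟨a', e', ha⟩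
    · subst ha
      have hk : k = 0 := h2.nil'
      subst hk
      have hw' : (f :: b) ++ [S.inv f] = α ++ [e] := by simpa using hw
      obtain ⟨h3, h4⟩ := List.append_inj' hw' rfl
      have h5 : S.inv f = e := by simpa using h4
      subst h3 h5
      rw [S.inv_inv] at hβ
      have := hI V E S (S.src f) (S.tgt f) [f] β b n m (by simpa using hβ) ⟨rfl, rfl⟩ h1
      have h6 : m + 0 + n = n + m := by omega
      rw [h6]
      simpa using this
    · have ha' : a = a' ++ [e'] := by simpa using ha
      subst ha'
      have hw' : (f :: (b ++ S.inv f :: a')) ++ [e'] = α ++ [e] := by simpa using hw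
      obtain ⟨h3, h4⟩ := List.append_inj' hw' rfl
      have h5 : e' = e := by simpa using h4
      subst h3 h5
      have := D.br h1 (ih2 a' e' rfl β n hβ)
      have h6 : m + k + n = m + (k + n) := by omega
      rw [h6]
      simpa using this
  | @tri e1 e' e'' a m ht h ih =>
    intro α e hw β n hβ
    cases α with
    | nil =>
      have h3 : e1 :: a = [e] := by simpa using hw
      have h4 : a = [] := (List.cons.inj h3).2
      subst h4
      exact (D.not_single (D.tri ht h)).elim
    | cons g α1 =>
      have h3 : e1 = g ∧ a = α1 ++ [e] := by simpa using hw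
      obtain ⟨h4, h5⟩ := h3
      subst h4 h5
      have := D.tri ht (ih (e' :: e'' :: α1) e (by simp) β n hβ)
      have h6 : m + 1 + n = m + n + 1 := by omega
      rw [h6]
      simpa using this

theorem glue (hI : InsStmt) : GlueStmt := by
  intro V E S x α β e m n h1 h2
  exact glue_aux hI h1 α e rfl β n h2

end Pool.Agent.ABA.B.H18
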