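import Pool.Agent.Helper52_ABA.LStmts

set_option autoImplicit false

/-! # ABL, module ROTCOL -/

namespace Pool.Agent.ABA.B.H18

open Pool.Agent.ABA.B Pool.Agent.ABA.B.TG

variable {V E : Type} (S : TG V E)

/-- rotation by one letter -/
def RR (n : ℕ) : Prop := ∀ (x : V) (e : E) (w : List E), S.D x (e :: w) n →
  S.D (S.tgt e) (w ++ [e]) n

/-- contraction -/
def TT (n : ℕ) : Prop := ∀ (α : List E) (x : V) (β : List E) (e e' e'' : E),
  S.D x (α ++ e' :: e'' :: β) n → S.Tri e e' e'' → S.D x (α ++ e :: β) (n + 1)

variable {S}

theorem rot_of {n : ℕ} (h : RR S n) : ∀ (α : List E) (x y : V) (β : List E),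
    S.D x (α ++ β) n → S.IsP x α y → S.D y (β ++ α) n := by
  intro α
  induction α with
  | nil =>
    intro x y β hD hP
    have : x = y := hP
    subst this
    simpa using hD
  | cons e α ih =>
    intro x y β hD hP
    have h1 := h x e (α ++ β) (by simpa using hD)
    have h2 := ih (S.tgt e) y (β ++ [e]) (by simpa using h1) hP.2
    simpa using h2

theorem rr_of {n : ℕ} (hR : ∀ m < n, RR S m) (hT : ∀ m < n, TT S m) : RR S n := by
  intro x e w h
  obtain ⟨hx, ⟨b, a, m, k, hw, hn, h1, h2⟩ | ⟨e', e'', m, hn, ht, h1⟩⟩ := h.cases'
  · subst hw hn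
    have h3 : S.D (S.src (S.inv e)) (S.inv e :: (a ++ S.inv (S.inv e) :: [])) (k + 0) :=
      D.br (by rw [tgt_inv]; exact h2) (D.nil _)
    rw [S.inv_inv] at h3
    have h4 := D.append h1 h3
    simpa using h4
  · subst hn
    have h2 := hR m (by omega) _ _ _ h1
    have h3 := hR m (by omega) _ _ _ (by simpa using h2)
    have h4 := hT m (by omega) w _ [] e e' e'' (by simpa using h3) ht
    rw [ht.tgt'] at h4
    simpa using h4

theorem tt_of (hI : InsStmt) {n : ℕ} (hR : ∀ m ≤ n, RR S m) (hT : ∀ m < n, TT S m) :
    TT S n := by
  intro α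
  induction hL : α.length using Nat.strong_induction_on generalizing α with
  | _ L ih =>
  intro x β e e' e'' h ht
  have hT' : ∀ k ≤ n, ∀ (α' : List E), α'.length < L → ∀ (x : V) (β : List E) (e e' e'' : E),
      S.D x (α' ++ e' :: e'' :: β) k → S.Tri e e' e'' → S.D x (α' ++ e :: β) (k + 1) := by
    intro k hk α' hα' x β e e' e'' hD ht
    rcases lt_or_eq_of_le hk with h1 | h1
    · exact hT k h1 α' x β e e' e'' hD ht
    · subst h1
      exact ih α'.length hα' α' rfl x β e e' e'' hD ht
  cases α with
  | nil =>
    have hx : x = S.src e' := (show S.D x (e' :: e'' :: β) n by simpa using h).src_eq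
    rw [ht.src'] at hx
    subst hx
    exact D.tri ht (by simpa using h)
  | cons f α1 =>
    have hL1 : α1.length < L := by
      rw [← hL]
      simp
    have h' : S.D x (f :: (α1 ++ e' :: e'' :: β)) n := by simpa using h
    obtain ⟨hx, ⟨b, a, m, k, hw, hn, h1, h2⟩ | ⟨f', f'', m, hn, htf, h1⟩⟩ := h'.cases'
    · subst hx
      -- the two uniform cases
      have case3 : b = α1 → S.inv f = e' → a = e'' :: β →
          S.D (S.src f) (f :: α1 ++ e :: β) (n + 1) := by
        intro hb hf ha
        subst hb hf ha
        have ht1 : S.Tri f e'' (S.inv e) := by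
          have := S.tri_rot ht
          rwa [S.inv_inv] at this
        have h3 : S.D (S.src (S.inv e)) (S.inv e :: (b ++ S.inv (S.inv e) :: [])) (m + 0) := by
          apply D.br _ (D.nil _)
          rw [tgt_inv]
          have h4 := ht.src'
          rw [src_inv] at h4
          rw [← h4]
          exact h1
        rw [S.inv_inv, src_inv, ← ht.tgt'] at h3
        have h5 := hI V E S (S.src f) (S.tgt e'') [e''] β _ k _ (by simpa using h2)
          ⟨h2.src_eq.symm, rfl⟩ h3
        have h6 := D.tri ht1 (a := b ++ e :: β) (by simpa using h5)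
        have h7 : n + 1 = k + m + 1 := by omega
        rw [h7]
        simpa using h6
      rcases List.append_eq_append_iff.mp hw with ⟨as, has1, has2⟩ | ⟨cs, hcs1, hcs2⟩
      · match as, has1, has2 with
        | [], has1, has2 =>
          have h3 : e' = S.inv f ∧ e'' :: β = a := by simpa using has2
          exact case3 (by simpa using has1) h3.1.symm h3.2.symm
        | [g], has1, has2 =>
          have h3 : e' = g ∧ e'' = S.inv f ∧ β = a := by simpa using has2
          obtain ⟨hg, hf, ha⟩ := h3
          subst hg hf ha
          subst has1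
          -- Tri f (inv e) e'
          have ht1 : S.Tri f (S.inv e) e' := by
            have h4 := S.tri_swap (S.tri_rot (S.tri_swap ht))
            rwa [S.inv_inv, S.inv_inv] at h4
          have hm : m ≤ n := by omega
          have hP : S.IsP (S.tgt f) (α1 ++ [e']) (S.tgt f) := h1.isP
          rw [isP_append] at hP
          obtain ⟨z, hz1, hz2⟩ := hP
          have h5 : S.D z ([e'] ++ α1) m := rot_of (hR m hm) α1 (S.tgt f) z [e'] h1 hz1
          have hz : z = S.src e' := hz2.1.symm
          rw [hz, ht.src', ← tgt_inv] at h5
          have h6 : S.src f = S.src (S.inv e) := by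
            have h7 := ht.tgt'
            rw [tgt_inv] at h7
            rw [src_inv, h7]
          have h8 : S.D (S.src (S.inv e)) β k := by
            rw [← h6]
            exact h2
          have h9 := D.br h5 h8
          rw [S.inv_inv, ← h6] at h9
          have h10 := D.tri ht1 (a := α1 ++ e :: β) (by simpa using h9)
          have h11 : n + 1 = m + k + 1 := by omega
          rw [h11]
          simpa using h10
        | g1 :: g2 :: as2, has1, has2 =>
          have h3 : e' = g1 ∧ e'' = g2 ∧ β = as2 ++ S.inv f :: a := by simpa using has2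
          obtain ⟨hg1, hg2, hβ⟩ := h3
          subst hg1 hg2 hβ has1
          have h4 := hT' m (by omega) α1 hL1 _ as2 e e' e'' h1 ht
          have h5 := D.br h4 h2
          have h6 : n + 1 = m + 1 + k := by omega
          rw [h6]
          simpa using h5
      · match cs, hcs1, hcs2 with
        | [], hcs1, hcs2 =>
          have h3 : S.inv f = e' ∧ a = e'' :: β := by simpa using hcs2
          exact case3 (by simpa using hcs1.symm) h3.1 h3.2
        | g :: cs2, hcs1, hcs2 =>
          have h3 : S.inv f = g ∧ a = cs2 ++ e' :: e'' :: β := by simpa using hcs2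
          obtain ⟨hg, ha⟩ := h3
          subst hg ha
          have hlen : cs2.length < L := by
            rw [← hL, hcs1]
            simp
            omega
          have h4 := hT' k (by omega) cs2 hlen _ β e e' e'' h2 ht
          have h5 := D.br h1 h4
          have h6 : n + 1 = m + (k + 1) := by omega
          rw [h6, hcs1]
          simpa using h5
    · subst hx hn
      have h2 := hT m (by omega) (f' :: f'' :: α1) _ β e e' e'' (by simpa using h1) ht
      have h3 := D.tri htf (a := α1 ++ e :: β) (by simpa using h2)
      simpa using h3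

theorem both (hI : InsStmt) : ∀ n, RR S n ∧ TT S n := by
  intro n
  induction n using Nat.strong_induction_on with
  | _ n ih =>
    have hR : RR S n := rr_of (fun m hm => (ih m hm).1) (fun m hm => (ih m hm).2)
    refine ⟨hR, tt_of hI ?_ (fun m hm => (ih m hm).2)⟩
    intro m hm
    rcases lt_or_eq_of_le hm with h | h
    · exact (ih m h).1
    · rw [h]
      exact hR

theorem rot (hI : InsStmt) : RotStmt := by
  intro V E S x y α β n h hP
  exact rot_of (both hI n).1 α x y β h hP

theorem col (hI : InsStmt) : ColStmt := by
  intro V E S x α β e e' e'' n h ht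
  exact (both hI n).2 α x β e e' e'' h ht

end Pool.Agent.ABA.B.H18
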